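import Pool.Agent.W491.FS.Stm
set_option autoImplicit false

/-! `e ē ξ^J` is exact for `J` nonempty. -/

noncomputable section

namespace Pool.Agent.W214.FS.Alpha

open Pool.Agent.W491.FS

section abstr

variable {A : Type} [Ring A] [Algebra ℂ A] {T : Type} [Fintype T] [DecidableEq T]

/-- product of letters: `r t` if `t ∈ R` and `p t` otherwise -/
def mm (p r : T → A) (ls : List T) (R : Finset T) : A :=
  (ls.map fun t => if t ∈ R then r t else p t).prod

omit [Algebra ℂ A] [Fintype T] in
lemma mm_insert (p r : T → A) (ls : List T) (R : Finset T) (t : T) (ht : t ∉ ls) :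
    mm p r ls (insert t R) = mm p r ls R := by
  unfold mm
  congr 1
  apply List.map_congr_left
  intro t' ht'
  have : t' ≠ t := fun h => ht (h ▸ ht')
  simp [this]

/-- the hypotheses on the letters -/
structure Hyp (D : A →ₗ[ℂ] A) (e eb : A) (p r : T → A) (a b : T → ℂ) : Prop where
  lp : ∀ t y, D (p t * y) = D (p t) * y - p t * D y
  lr : ∀ t y, D (r t * y) = D (r t) * y - r t * D y
  le : ∀ y, D (e * y) = - (e * D y)
  leb : ∀ y, D (eb * y) = - (eb * D y)
  one : D 1 = 0
  dp : ∀ t, D (p t) = (a t • e + b t • eb) * r t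
  dr : ∀ t, D (r t) = 0
  ep : ∀ t, p t * e = -(e * p t)
  er : ∀ t, r t * e = -(e * r t)
  ebp : ∀ t, p t * eb = -(eb * p t)
  ebr : ∀ t, r t * eb = -(eb * r t)
  ee : e * e = 0
  ebeb : eb * eb = 0
  ebe : eb * e = -(e * eb)

variable {D : A →ₗ[ℂ] A} {e eb : A} {p r : T → A} {a b : T → ℂ}

omit [Fintype T] [DecidableEq T] in
lemma antic {x : A} (h1 : x * e = -(e * x)) (h2 : x * eb = -(eb * x)) (c d : ℂ) :
    x * (c • e + d • eb) = -((c • e + d • eb) * x) := by
  rw [mul_add, add_mul, mul_smul_comm, mul_smul_comm, h1, h2, smul_mul_assoc, smul_mul_assoc,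
    smul_neg, smul_neg, neg_add]

omit [Fintype T] in
lemma D_mm (H : Hyp D e eb p r a b) (R : Finset T) : ∀ ls : List T, ls.Nodup →
    D (mm p r ls R) = ∑ t ∈ ls.toFinset \ R, (a t • e + b t • eb) * mm p r ls (insert t R)
  | [], _ => by simp [mm, H.one]
  | t :: ls, hn => by
    have hn' := List.nodup_cons.1 hn
    have ih := D_mm H R ls hn'.2
    have hx : ∀ t' ∈ ls.toFinset \ R, (if t ∈ insert t' R then r t else p t) =
        if t ∈ R then r t else p t := by
      intro t' ht'
      have : t ≠ t' := by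
        rintro rfl
        exact hn'.1 (List.mem_toFinset.1 (Finset.mem_sdiff.1 ht').1)
      simp [this]
    have hc : ∀ R', mm p r (t :: ls) R' = (if t ∈ R' then r t else p t) * mm p r ls R' := by
      intro R'; simp [mm]
    rw [hc R]
    by_cases htR : t ∈ R
    · have hs : (t :: ls).toFinset \ R = ls.toFinset \ R := by
        ext x
        simp only [List.toFinset_cons, Finset.mem_sdiff, Finset.mem_insert]
        constructor
        · rintro ⟨h | h, h2⟩
          · exact absurd (h ▸ htR) h2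
          · exact ⟨h, h2⟩
        · rintro ⟨h, h2⟩
          exact ⟨Or.inr h, h2⟩
      rw [hs, if_pos htR, H.lr, H.dr, zero_mul, zero_sub, ih, Finset.mul_sum, ← Finset.sum_neg_distrib]
      apply Finset.sum_congr rfl
      intro t' ht'
      rw [hc, hx t' ht', if_pos htR, ← mul_assoc, ← mul_assoc, antic (H.er t) (H.ebr t), neg_mul,
        neg_neg]
    · have hs : (t :: ls).toFinset \ R = insert t (ls.toFinset \ R) := by
        ext x
        simp only [List.toFinset_cons, Finset.mem_sdiff, Finset.mem_insert]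
        constructor
        · rintro ⟨h | h, h2⟩
          · exact Or.inl h
          · exact Or.inr ⟨h, h2⟩
        · rintro (h | ⟨h, h2⟩)
          · exact ⟨Or.inl h, h ▸ htR⟩
          · exact ⟨Or.inr h, h2⟩
      have hnm : t ∉ ls.toFinset \ R := by
        intro h
        exact hn'.1 (List.mem_toFinset.1 (Finset.mem_sdiff.1 h).1)
      rw [hs, Finset.sum_insert hnm, if_neg htR, H.lp, H.dp, ih, Finset.mul_sum, sub_eq_add_neg,
        ← Finset.sum_neg_distrib]
      congr 1
      · rw [hc, if_pos (Finset.mem_insert_self _ _), mm_insert _ _ _ _ _ hn'.1, mul_assoc]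
      · apply Finset.sum_congr rfl
        intro t' ht'
        rw [hc, hx t' ht', if_neg htR, ← mul_assoc, ← mul_assoc, antic (H.ep t) (H.ebp t), neg_mul,
          neg_neg]

/-- reindexing pairs `(R, t ∉ R)` as pairs `(S, t ∈ S)` -/
lemma reidx {M : Type} [AddCommGroup M] (F : Finset T → T → M) :
    ∑ R : Finset T, ∑ t ∈ Finset.univ \ R, F (insert t R) t = ∑ S : Finset T, ∑ t ∈ S, F S t := by
  rw [Finset.sum_sigma', Finset.sum_sigma']
  refine Finset.sum_bij' (fun x _ => ⟨insert x.2 x.1, x.2⟩) (fun x _ => ⟨x.1.erase x.2, x.2⟩)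
    ?_ ?_ ?_ ?_ ?_
  · rintro ⟨R, t⟩ _
    simp
  · rintro ⟨R, t⟩ _
    simp
  · rintro ⟨R, t⟩ h
    simp only [Finset.mem_sigma, Finset.mem_univ, Finset.mem_sdiff, true_and] at h
    simp [Finset.erase_insert h]
  · rintro ⟨R, t⟩ h
    simp only [Finset.mem_sigma, Finset.mem_univ, true_and] at h
    simp [Finset.insert_erase h]
  · rintro ⟨R, t⟩ _
    rfl

lemma exact_mm (H : Hyp D e eb p r a b) (ls : List T) (hn : ls.Nodup) (hall : ∀ t, t ∈ ls)
    (S : Finset T) (u v : Finset T → ℂ)
    (huv : ∀ S' : Finset T,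
      ∑ l ∈ S', (a l * u (S'.erase l) + b l * v (S'.erase l)) = if S' = S then 1 else 0) :
    ∃ x y : A, D (e * x + eb * y) = e * eb * mm p r ls S := by
  have hls : ls.toFinset = Finset.univ := by
    ext t; simp [hall t]
  refine ⟨-∑ R : Finset T, v R • mm p r ls R, ∑ R : Finset T, u R • mm p r ls R, ?_⟩
  have h1 : ∀ w : Finset T → ℂ, D (∑ R : Finset T, w R • mm p r ls R) =
      ∑ R : Finset T, ∑ t ∈ Finset.univ \ R,
        (w ((insert t R).erase t)) • ((a t • e + b t • eb) * mm p r ls (insert t R)) := by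
    intro w
    rw [map_sum]
    apply Finset.sum_congr rfl
    intro R _
    rw [map_smul, D_mm H R ls hn, hls, Finset.smul_sum]
    apply Finset.sum_congr rfl
    intro t ht
    rw [Finset.erase_insert (Finset.mem_sdiff.1 ht).2]
  have h2 : ∀ w : Finset T → ℂ, D (∑ R : Finset T, w R • mm p r ls R) =
      ∑ S' : Finset T, ∑ t ∈ S', (w (S'.erase t)) • ((a t • e + b t • eb) * mm p r ls S') := by
    intro w
    rw [h1, reidx (fun S' t => (w (S'.erase t)) • ((a t • e + b t • eb) * mm p r ls S'))]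
  rw [map_add, H.le, H.leb, map_neg, mul_neg, neg_neg, h2, h2, Finset.mul_sum, Finset.mul_sum,
    ← sub_eq_add_neg, ← Finset.sum_sub_distrib]
  have h3 : ∀ S' : Finset T, e * (∑ t ∈ S', v (S'.erase t) • ((a t • e + b t • eb) * mm p r ls S')) -
      eb * (∑ t ∈ S', u (S'.erase t) • ((a t • e + b t • eb) * mm p r ls S')) =
      (if S' = S then (1 : ℂ) else 0) • (e * eb * mm p r ls S') := by
    intro S'
    rw [← huv S', Finset.sum_smul, Finset.mul_sum, Finset.mul_sum, ← Finset.sum_sub_distrib]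
    apply Finset.sum_congr rfl
    intro t _
    have e1 : e * (v (S'.erase t) • ((a t • e + b t • eb) * mm p r ls S')) =
        (b t * v (S'.erase t)) • (e * eb * mm p r ls S') := by
      rw [mul_smul_comm, ← mul_assoc, mul_add, mul_smul_comm, mul_smul_comm, H.ee, smul_zero,
        zero_add, smul_mul_assoc, smul_smul, mul_comm (b t)]
    have e2 : eb * (u (S'.erase t) • ((a t • e + b t • eb) * mm p r ls S')) =
        -((a t * u (S'.erase t)) • (e * eb * mm p r ls S')) := by
      rw [mul_smul_comm, ← mul_assoc, mul_add, mul_smul_comm, mul_smul_comm, H.ebeb, smul_zero,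
        add_zero, smul_mul_assoc, smul_smul, mul_comm (a t), H.ebe, neg_mul, smul_neg]
    rw [e1, e2, sub_neg_eq_add, ← add_smul, add_comm]
  rw [Finset.sum_congr rfl fun S' _ => h3 S']
  simp

end abstr

/-- odd elements of degree one -/
def Od {ι : Type} [DecidableEq ι] (x : Lam ι) : Prop := ∃ v, x = ExteriorAlgebra.ι ℂ v

section od

variable {ι : Type} [DecidableEq ι]

lemma Od.gen (i : ι ⊕ ι) : Od (gen i : Lam ι) := ⟨_, rfl⟩

lemma Od.add {x y : Lam ι} (hx : Od x) (hy : Od y) : Od (x + y) := by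
  obtain ⟨v, rfl⟩ := hx
  obtain ⟨w, rfl⟩ := hy
  exact ⟨v + w, (map_add _ _ _).symm⟩

lemma Od.sub {x y : Lam ι} (hx : Od x) (hy : Od y) : Od (x - y) := by
  obtain ⟨v, rfl⟩ := hx
  obtain ⟨w, rfl⟩ := hy
  exact ⟨v - w, (map_sub _ _ _).symm⟩

lemma Od.smul {x : Lam ι} (c : ℂ) (hx : Od x) : Od (c • x) := by
  obtain ⟨v, rfl⟩ := hx
  exact ⟨c • v, (map_smul _ _ _).symm⟩

lemma Od.swap {x y : Lam ι} (hx : Od x) (hy : Od y) : x * y = -(y * x) := by
  obtain ⟨v, rfl⟩ := hx
  obtain ⟨w, rfl⟩ := hy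
  exact eq_neg_of_add_eq_zero_left (ExteriorAlgebra.ι_add_mul_swap v w)

lemma Od.sq {x : Lam ι} (hx : Od x) : x * x = 0 := by
  obtain ⟨v, rfl⟩ := hx
  exact ExteriorAlgebra.ι_sq_zero v

lemma Od.inv {x : Lam ι} (hx : Od x) : CliffordAlgebra.involute x = -x := by
  obtain ⟨v, rfl⟩ := hx
  exact CliffordAlgebra.involute_ι v

lemma Od.leib {x : Lam ι} (hx : Od x) {D : Lam ι →ₗ[ℂ] Lam ι}
    (hL : ∀ x y, D (x * y) = D x * y + CliffordAlgebra.involute x * D y) (y : Lam ι) :
    D (x * y) = D x * y - x * D y := by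
  rw [hL, hx.inv, neg_mul, sub_eq_add_neg]

end od

variable {m k : ℕ}

lemma od_ee : Od (ee : Lam (Idx m k)) := Od.gen _
lemma od_eeb : Od (eeb : Lam (Idx m k)) := Od.gen _
lemma od_r1 (j : Fin k) : Od (r1 j : Lam (Idx m k)) := ((Od.gen _).smul _).add (Od.gen _)
lemma od_r2 (j : Fin k) : Od (r2 j : Lam (Idx m k)) := (Od.gen _).add ((Od.gen _).smul _)
lemma od_p1 (j : Fin k) : Od (p1 j : Lam (Idx m k)) := (Od.gen _).sub ((Od.gen _).smul _)
lemma od_p2 (j : Fin k) : Od (p2 j : Lam (Idx m k)) := ((Od.gen _).smul _).sub (Od.gen _)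

lemma D_ee (s : Str (Fin (m + 1))) (hs : s 0 = []) (D : Lam (Idx m k) →ₗ[ℂ] Lam (Idx m k))
    (hD : IsDer (blk s k) D) : D ee = 0 := by
  have h := hD.gen_mul (Sum.inl (Sum.inl 0)) 1
  rw [mul_one, mul_one, hD.one, mul_zero, sub_zero] at h
  show D (gen _) = 0
  rw [h]
  simp [dgen, blk, hs, quad]

lemma D_eeb (s : Str (Fin (m + 1))) (hs : s 0 = []) (D : Lam (Idx m k) →ₗ[ℂ] Lam (Idx m k))
    (hD : IsDer (blk s k) D) : D eeb = 0 := by
  have h := hD.gen_mul (Sum.inr (Sum.inl 0)) 1
  rw [mul_one, mul_one, hD.one, mul_zero, sub_zero] at h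
  show D (gen _) = 0
  rw [h]
  simp [dgen, blk, hs, quad]

variable {J : ℕ}

/-- the letters `p` -/
def pL (f : Fin J → Fin k) (t : Fin J × Bool) : Lam (Idx m k) :=
  if t.2 then p2 (f t.1) else p1 (f t.1)

/-- the letters `r` -/
def rL (f : Fin J → Fin k) (t : Fin J × Bool) : Lam (Idx m k) :=
  if t.2 then r2 (f t.1) else r1 (f t.1)

/-- the coefficients of `e` -/
def aL (f : Fin J → Fin k) (t : Fin J × Bool) : ℂ := if t.2 then (lj (f t.1)) ^ 2 else 1

/-- the coefficients of `ē` -/
def bL (f : Fin J → Fin k) (t : Fin J × Bool) : ℂ := if t.2 then -1 else -(lj (f t.1)) ^ 2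

lemma od_p (f : Fin J → Fin k) (t : Fin J × Bool) : Od (pL f t : Lam (Idx m k)) := by
  unfold pL
  split_ifs
  · exact od_p2 _
  · exact od_p1 _

lemma od_r (f : Fin J → Fin k) (t : Fin J × Bool) : Od (rL f t : Lam (Idx m k)) := by
  unfold rL
  split_ifs
  · exact od_r2 _
  · exact od_r1 _

lemma hyp (h1 : S_DER) (h2 : S_BID) (s : Str (Fin (m + 1))) (hs : s 0 = [])
    (D : Lam (Idx m k) →ₗ[ℂ] Lam (Idx m k)) (hD : IsDer (blk s k) D) (f : Fin J → Fin k) :
    Hyp D ee eeb (pL f) (rL f) (aL f) (bL f) := by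
  have hL := (h1 (Idx m k) (blk s k)).2 D hD
  have hB := h2 m s k hs D hD
  refine ⟨fun t y => (od_p f t).leib hL y, fun t y => (od_r f t).leib hL y, fun y => ?_, fun y => ?_,
    hD.one, fun t => ?_, fun t => ?_, fun t => (od_p f t).swap od_ee, fun t => (od_r f t).swap od_ee,
    fun t => (od_p f t).swap od_eeb, fun t => (od_r f t).swap od_eeb, od_ee.sq, od_eeb.sq,
    od_eeb.swap od_ee⟩
  · rw [od_ee.leib hL, D_ee s hs D hD, zero_mul, zero_sub]
  · rw [od_eeb.leib hL, D_eeb s hs D hD, zero_mul, zero_sub]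
  · obtain ⟨i, c⟩ := t
    cases c
    · simp only [pL, rL, aL, bL, Bool.false_eq_true, if_false]
      rw [(hB (f i)).2.2.1, one_smul, neg_smul, sub_eq_add_neg]
    · simp only [pL, rL, aL, bL, if_true]
      rw [(hB (f i)).2.2.2.1, neg_smul, one_smul, sub_eq_add_neg]
  · obtain ⟨i, c⟩ := t
    cases c
    · simp only [rL, Bool.false_eq_true, if_false]
      exact (hB (f i)).1
    · simp only [rL, if_true]
      exact (hB (f i)).2.1

lemma lj_nat (j : Fin k) : lj j = (((j : ℕ) + 2 : ℕ) : ℂ) := by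
  unfold lj; push_cast; rfl

lemma distinct (f : Fin J → Fin k) (hf : Function.Injective f) (t t' : Fin J × Bool) (h : t ≠ t') :
    aL f t * bL f t' ≠ aL f t' * bL f t := by
  obtain ⟨i, c⟩ := t
  obtain ⟨i', c'⟩ := t'
  have hsq : ∀ j j' : Fin k, j ≠ j' → (lj j) ^ 2 ≠ (lj j') ^ 2 := by
    intro j j' hj h
    rw [lj_nat, lj_nat] at h
    have h' : ((j : ℕ) + 2) ^ 2 = ((j' : ℕ) + 2) ^ 2 := by exact_mod_cast h
    have h'' := (Nat.pow_left_injective (n := 2) (by norm_num)) h'
    simp only [add_left_inj] at h''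
    exact hj (Fin.ext h'')
  have hmul : ∀ j j' : Fin k, (lj j) ^ 2 * (lj j') ^ 2 ≠ 1 := by
    intro j j' h
    rw [lj_nat, lj_nat] at h
    have h' : ((j : ℕ) + 2) ^ 2 * ((j' : ℕ) + 2) ^ 2 = 1 := by exact_mod_cast h
    have h1 := Nat.eq_one_of_mul_eq_one_right h'
    nlinarith [Nat.zero_le (j : ℕ)]
  cases c <;> cases c' <;> simp only [aL, bL, Bool.false_eq_true, if_false, if_true, one_mul]
  · have hi : i ≠ i' := fun hh => h (by rw [hh])
    intro hh
    exact hsq _ _ (hf.ne hi) (neg_injective hh).symm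
  · intro hh
    have := hmul (f i') (f i)
    apply this
    linear_combination hh
  · intro hh
    have := hmul (f i) (f i')
    apply this
    linear_combination -hh
  · have hi : i ≠ i' := fun hh => h (by rw [hh])
    intro hh
    apply hsq _ _ (hf.ne hi)
    linear_combination -hh

/-- the letters of the blocks of a list -/
def bl (K : List (Fin J)) : List (Fin J × Bool) := K.flatMap fun i => [(i, false), (i, true)]

lemma mem_bl (K : List (Fin J)) (t : Fin J × Bool) : t ∈ bl K ↔ t.1 ∈ K := by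
  obtain ⟨i, c⟩ := t
  cases c <;> simp [bl]

lemma bl_nodup : ∀ K : List (Fin J), K.Nodup → (bl K).Nodup
  | [], _ => by simp [bl]
  | i :: K, h => by
    have h' := List.nodup_cons.1 h
    have ih := bl_nodup K h'.2
    have e : bl (i :: K) = (i, false) :: (i, true) :: bl K := by simp [bl]
    rw [e, List.nodup_cons, List.nodup_cons]
    refine ⟨?_, ?_, ih⟩
    · rw [List.mem_cons, not_or]
      exact ⟨by simp, fun h2 => h'.1 ((mem_bl _ _).1 h2)⟩
    · exact fun h2 => h'.1 ((mem_bl _ _).1 h2)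

/-- the set of letters of a choice -/
def Sc (c : Fin J → Bool) : Finset (Fin J × Bool) := Finset.univ.image fun i => (i, c i)

lemma mem_Sc (c : Fin J → Bool) (i : Fin J) (x : Bool) : (i, x) ∈ Sc c ↔ c i = x := by
  simp [Sc]

lemma card_Sc (c : Fin J → Bool) : (Sc c).card = J := by
  unfold Sc
  rw [Finset.card_image_of_injective _ (fun a b h => (Prod.mk.inj h).1)]
  simp

lemma mm_bl_congr (f : Fin J → Fin k) (K : List (Fin J)) (c c' : Fin J → Bool)
    (h : ∀ i ∈ K, c i = c' i) :
    mm (pL f : _ → Lam (Idx m k)) (rL f) (bl K) (Sc c) = mm (pL f) (rL f) (bl K) (Sc c') := by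
  unfold mm
  congr 1
  apply List.map_congr_left
  rintro ⟨i, x⟩ ht
  have hi := h i ((mem_bl _ _).1 ht)
  simp only [mem_Sc, hi]

lemma prod_mem (f : Fin J → Fin k) : ∀ K : List (Fin J), K.Nodup →
    (K.map fun i => (xi (f i) : Lam (Idx m k))).prod ∈
      Submodule.span ℂ (Set.range fun c : Fin J → Bool =>
        (mm (pL f) (rL f) (bl K) (Sc c) : Lam (Idx m k)))
  | [], _ => by
    apply Submodule.subset_span
    exact ⟨fun _ => false, by simp [mm, bl]⟩
  | i :: K, h => by
    have h' := List.nodup_cons.1 h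
    have ih := prod_mem f K h'.2
    rw [List.map_cons, List.prod_cons]
    have key : ∀ z ∈ Submodule.span ℂ (Set.range fun c : Fin J → Bool =>
        (mm (pL f) (rL f) (bl K) (Sc c) : Lam (Idx m k))),
        xi (f i) * z ∈ Submodule.span ℂ (Set.range fun c : Fin J → Bool =>
        (mm (pL f) (rL f) (bl (i :: K)) (Sc c) : Lam (Idx m k))) := by
      intro z hz
      induction hz using Submodule.span_induction with
      | mem z hz =>
        obtain ⟨c, rfl⟩ := hz
        have hcc : ∀ (x : Bool), ∀ i' ∈ K, c i' = Function.update c i x i' := by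
          intro x i' hi'
          rw [Function.update_of_ne]
          rintro rfl
          exact h'.1 hi'
        have e0 : ∀ x : Bool, (mm (pL f) (rL f) (bl (i :: K)) (Sc (Function.update c i x)) :
            Lam (Idx m k)) =
            (if x = false then r1 (f i) * p2 (f i) else p1 (f i) * r2 (f i)) *
              mm (pL f) (rL f) (bl K) (Sc c) := by
          intro x
          have e1 : bl (i :: K) = (i, false) :: (i, true) :: bl K := by simp [bl]
          rw [mm_bl_congr f K c _ (hcc x), e1]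
          unfold mm
          simp only [List.map_cons, List.prod_cons, mem_Sc, Function.update_self]
          rw [← mul_assoc]
          congr 1
          cases x <;> simp [pL, rL]
        have e2 : (xi (f i) : Lam (Idx m k)) * mm (pL f) (rL f) (bl K) (Sc c) =
            (lj (f i)) ^ 2 • mm (pL f) (rL f) (bl (i :: K)) (Sc (Function.update c i false)) -
              mm (pL f) (rL f) (bl (i :: K)) (Sc (Function.update c i true)) := by
          rw [e0, e0, if_pos rfl, if_neg (by simp), ← smul_mul_assoc, ← sub_mul]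
          congr 1
          unfold xi
          rw [(od_r2 (f i)).swap (od_p1 (f i)), sub_eq_add_neg]
        simp only
        rw [e2]
        exact Submodule.sub_mem _ (Submodule.smul_mem _ _ (Submodule.subset_span ⟨_, rfl⟩))
          (Submodule.subset_span ⟨_, rfl⟩)
      | zero => rw [mul_zero]; exact Submodule.zero_mem _
      | add x y _ _ hx hy => rw [mul_add]; exact Submodule.add_mem _ hx hy
      | smul r x _ hx => rw [mul_smul_comm]; exact Submodule.smul_mem _ _ hx
    exact key _ ih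

theorem main (h1 : S_DER) (h2 : S_BID) (h3 : S_JLEM) : S_ALPHA := by
  intro m s k hs D hD L hL hne
  set J := L.length with hJ
  have hJ0 : 0 < J := List.length_pos_of_ne_nil hne
  set f : Fin J → Fin k := L.get with hf
  have hinj : Function.Injective f := List.nodup_iff_injective_get.1 hL
  have hH : Hyp D ee eeb (pL f) (rL f) (aL f) (bL f) := hyp h1 h2 s hs D hD f
  have hLm : (L.map (xi : Fin k → Lam (Idx m k))).prod =
      ((List.finRange J).map fun i => (xi (f i) : Lam (Idx m k))).prod := by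
    congr 1
    have e : L = (List.finRange J).map f := (List.map_get_finRange L).symm
    conv_lhs => rw [e]
    rw [List.map_map]
    rfl
  rw [hLm]
  have hmem := prod_mem (m := m) f (List.finRange J) (List.nodup_finRange J)
  generalize ((List.finRange J).map fun i => (xi (f i) : Lam (Idx m k))).prod = z at hmem
  induction hmem using Submodule.span_induction with
  | mem z hz =>
    obtain ⟨c, rfl⟩ := hz
    obtain ⟨u, v, huv⟩ := h3 (Fin J × Bool) (aL f) (bL f) (distinct f hinj) (Sc c)
      (by rw [card_Sc]; simp [mul_comm]) (by rw [card_Sc]; exact hJ0)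
    exact exact_mm hH (bl (List.finRange J)) (bl_nodup _ (List.nodup_finRange J))
      (fun t => (mem_bl _ _).2 (List.mem_finRange _)) (Sc c) u v huv
  | zero => exact ⟨0, 0, by simp⟩
  | add x y _ _ hx hy =>
    obtain ⟨x1, y1, e1⟩ := hx
    obtain ⟨x2, y2, e2⟩ := hy
    refine ⟨x1 + x2, y1 + y2, ?_⟩
    rw [mul_add (ee * eeb), ← e1, ← e2, ← map_add]
    congr 1
    rw [mul_add, mul_add]
    abel
  | smul r x _ hx =>
    obtain ⟨x1, y1, e1⟩ := hx
    refine ⟨r • x1, r • y1, ?_⟩
    have a1 : (ee : Lam (Idx m k)) * r • x1 = r • (ee * x1) := mul_smul_comm r _ _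
    have a2 : (eeb : Lam (Idx m k)) * r • y1 = r • (eeb * y1) := mul_smul_comm r _ _
    have a3 : (ee * eeb : Lam (Idx m k)) * r • x = r • (ee * eeb * x) := mul_smul_comm r _ _
    rw [a1, a2, a3, ← smul_add, map_smul, e1]

end Pool.Agent.W214.FS.Alpha
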